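import Mathlib
import Pool.Agent.Lib.MP_7580b0_co.Numeric

/-!
# Linear lower bound for nonextendible 4-dimensional Latin hypercuboids

There is `γ > 0` with `NE_4(n) ≥ γ n` for every `n ≥ 5`.
-/

namespace Pool.Agent.Results.MP_7580b0_co.LinearLowerBound

/-- `H : [n]^(d-1) × [k] → [n]` is a Latin hypercuboid of order `n`, dimension `d` and height `k`:
on every line every symbol occurs at most once. The lines are obtained by varying one of the first
`d - 1` coordinates (first clause), or the last coordinate (second clause). -/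
def IsLatinHypercuboid (d n k : ℕ) (H : (Fin (d - 1) → Fin n) → Fin k → Fin n) : Prop :=
  (∀ (i : Fin (d - 1)) (x : Fin (d - 1) → Fin n) (j : Fin k),
    Function.Injective (fun t : Fin n => H (Function.update x i t) j)) ∧
  ∀ x : Fin (d - 1) → Fin n, Function.Injective (H x)

/-- `H` is extendible: some Latin hypercuboid of height `k + 1` agrees with `H` on the first `k`
layers. -/
def IsExtendible (d n k : ℕ) (H : (Fin (d - 1) → Fin n) → Fin k → Fin n) : Prop :=
  ∃ H' : (Fin (d - 1) → Fin n) → Fin (k + 1) → Fin n, IsLatinHypercuboid d n (k + 1) H' ∧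
    ∀ (x : Fin (d - 1) → Fin n) (j : Fin k), H' x j.castSucc = H x j

/-- `k = NE_d(n)`: the least height `k` (with `1 ≤ k < n`) of a Latin hypercuboid of order `n` and
dimension `d` that is not extendible. -/
def IsNE (d n k : ℕ) : Prop :=
  IsLeast {k | 1 ≤ k ∧ k < n ∧ ∃ H : (Fin (d - 1) → Fin n) → Fin k → Fin n,
    IsLatinHypercuboid d n k H ∧ ¬ IsExtendible d n k H} k

open Pool.Agent.Lib.MP_7580b0_co

/-- the set of quadruples used by `H` has at most `k` elements on every line -/
theorem line_bound {n k : ℕ} (H : (Fin (4 - 1) → Fin n) → Fin k → Fin n)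
    (hH : IsLatinHypercuboid 4 n k H) (i : Fin 4) (v : Fin 4 → Fin n) :
    {s | (fun t : Fin 4 → Fin n => ∃ j, H (fun l : Fin 3 => t l.castSucc) j = t 3)
      (Function.update v i s)}.ncard ≤ k := by
  classical
  by_cases hi : i = 3
  · subst hi
    have h1 : {s | (fun t : Fin 4 → Fin n => ∃ j, H (fun l : Fin 3 => t l.castSucc) j = t 3)
        (Function.update v 3 s)} ⊆ Set.range (H (fun l : Fin 3 => v l.castSucc)) := by
      rintro s ⟨j, hj⟩
      refine ⟨j, ?_⟩
      have e1 : (fun l : Fin 3 => (Function.update v 3 s) l.castSucc) =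
          fun l : Fin 3 => v l.castSucc := by
        funext l
        apply Function.update_of_ne
        intro h
        have := congrArg Fin.val h
        simp at this
        omega
      rw [e1, Function.update_self] at hj
      exact hj
    refine (Set.ncard_le_ncard h1 (Set.toFinite _)).trans ?_
    rw [← Set.image_univ]
    refine (Set.ncard_image_le (Set.toFinite _)).trans ?_
    rw [Set.ncard_univ, Nat.card_eq_fintype_card, Fintype.card_fin]
  · have hi3 : i.val < 3 := by
      have := i.isLt
      have h2 : i.val ≠ 3 := fun e => hi (Fin.ext e)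
      omega
    let i' : Fin 3 := ⟨i.val, hi3⟩
    have hii : i'.castSucc = i := Fin.ext rfl
    have e3 : ∀ s, (Function.update v i s) 3 = v 3 := fun s =>
      Function.update_of_ne (Ne.symm hi) _ _
    have e1 : ∀ s, (fun l : Fin 3 => (Function.update v i s) l.castSucc) =
        Function.update (fun l : Fin 3 => v l.castSucc) i' s := by
      intro s
      funext l
      by_cases hl : l = i'
      · rw [hl, Function.update_self, hii, Function.update_self]
      · rw [Function.update_of_ne hl, Function.update_of_ne]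
        intro h
        apply hl
        rw [← hii] at h
        exact Fin.castSucc_injective _ h
    -- choose the layer
    have h1 : ∀ s ∈ {s | (fun t : Fin 4 → Fin n => ∃ j, H (fun l : Fin 3 => t l.castSucc) j = t 3)
        (Function.update v i s)}, ∃ j : Fin k,
          H (Function.update (fun l : Fin 3 => v l.castSucc) i' s) j = v 3 := by
      rintro s ⟨j, hj⟩
      rw [e1, e3] at hj
      exact ⟨j, hj⟩
    rcases Set.eq_empty_or_nonempty {s | (fun t : Fin 4 → Fin n =>
        ∃ j, H (fun l : Fin 3 => t l.castSucc) j = t 3) (Function.update v i s)} with he | hne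
    · rw [he]
      simp
    have : Nonempty (Fin k) := by
      obtain ⟨s, hs⟩ := hne
      obtain ⟨j, _⟩ := h1 s hs
      exact ⟨j⟩
    choose! g hg using h1
    have h2 := Conc.ncard_le_of_injOn _ g (by
      intro s hs s' hs' heq
      have g1 := hg s hs
      have g2 := hg s' hs'
      rw [heq] at g1
      exact hH.1 i' (fun l : Fin 3 => v l.castSucc) (g s') (g1.trans g2.symm))
    rwa [Fintype.card_fin] at h2

/-- a Latin cube avoiding the used quadruples gives a new layer -/
theorem extend_of_cube {n k : ℕ} (H : (Fin (4 - 1) → Fin n) → Fin k → Fin n)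
    (hH : IsLatinHypercuboid 4 n k H) (L : Fin n → Fin n → Fin n → Fin n)
    (h1 : ∀ x y, Function.Injective (L x y))
    (h2 : ∀ y z, Function.Injective (fun x => L x y z))
    (h3 : ∀ x z, Function.Injective (fun y => L x y z))
    (h4 : ∀ x y z, ¬ ∃ j, H (fun l : Fin 3 => (![x, y, z, L x y z] : Fin 4 → Fin n) l.castSucc) j =
      (![x, y, z, L x y z] : Fin 4 → Fin n) 3) :
    IsExtendible 4 n k H := by
  have h5 : ∀ (x : Fin (4 - 1) → Fin n) (j : Fin k),
      H x j ≠ L (x (0 : Fin 3)) (x (1 : Fin 3)) (x (2 : Fin 3)) := by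
    intro x j hj
    apply h4 (x (0 : Fin 3)) (x (1 : Fin 3)) (x (2 : Fin 3))
    refine ⟨j, ?_⟩
    have e1 : (fun l : Fin 3 => (![x (0 : Fin 3), x (1 : Fin 3), x (2 : Fin 3),
        L (x (0 : Fin 3)) (x (1 : Fin 3)) (x (2 : Fin 3))] : Fin 4 → Fin n) l.castSucc) = x := by
      funext l
      match l with
      | 0 => rfl
      | 1 => rfl
      | 2 => rfl
    rw [e1, hj]
    rfl
  refine ⟨fun x j => Fin.lastCases (motive := fun _ => Fin n)
    (L (x (0 : Fin 3)) (x (1 : Fin 3)) (x (2 : Fin 3))) (fun j => H x j) j, ⟨?_, ?_⟩, ?_⟩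
  · intro i x j
    refine Fin.lastCases ?_ (fun j => ?_) j
    · intro t t' h
      simp only [Fin.lastCases_last] at h
      change Fin 3 at i
      match i with
      | 0 =>
        have h' : L t (x (1 : Fin 3)) (x (2 : Fin 3)) = L t' (x (1 : Fin 3)) (x (2 : Fin 3)) := h
        exact h2 _ _ h'
      | 1 =>
        have h' : L (x (0 : Fin 3)) t (x (2 : Fin 3)) = L (x (0 : Fin 3)) t' (x (2 : Fin 3)) := h
        exact h3 _ _ h'
      | 2 =>
        have h' : L (x (0 : Fin 3)) (x (1 : Fin 3)) t = L (x (0 : Fin 3)) (x (1 : Fin 3)) t' := h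
        exact h1 _ _ h'
    · intro t t' h
      simp only [Fin.lastCases_castSucc] at h
      exact hH.1 i x j h
  · intro x j j'
    refine Fin.lastCases ?_ (fun a => ?_) j <;> refine Fin.lastCases ?_ (fun a' => ?_) j'
    · intro _; rfl
    · intro h
      simp only [Fin.lastCases_last, Fin.lastCases_castSucc] at h
      exact absurd h.symm (h5 x a')
    · intro h
      simp only [Fin.lastCases_last, Fin.lastCases_castSucc] at h
      exact absurd h (h5 x a)
    · intro h
      simp only [Fin.lastCases_castSucc] at h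
      rw [hH.2 x h]
  · intro x j
    simp only [Fin.lastCases_castSucc]

/-- **Main theorem.** There is `γ > 0` such that for every `n ≥ 5`, `NE_4(n) ≥ γ n`; in other words,
every Latin hypercuboid of dimension 4, order `n` and height `1 ≤ k < γ n` is extendible. -/
theorem result : ∃ γ : ℝ, 0 < γ ∧ ∀ n : ℕ, 5 ≤ n →
    (∀ k : ℕ, IsNE 4 n k → γ * n ≤ k) ∧
    ∀ k : ℕ, 1 ≤ k → (k : ℝ) < γ * n →
      ∀ H : (Fin (4 - 1) → Fin n) → Fin k → Fin n, IsLatinHypercuboid 4 n k H →
        IsExtendible 4 n k H := by
  obtain ⟨n0, D, hD, hmain⟩ := avoid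
  have key : ∀ n k : ℕ, 1 ≤ k → (k : ℝ) < 1 / ((n0 : ℝ) + D) * n →
      ∀ H : (Fin (4 - 1) → Fin n) → Fin k → Fin n, IsLatinHypercuboid 4 n k H →
        IsExtendible 4 n k H := by
    intro n k hk hkn H hH
    have hD' : (1 : ℝ) ≤ D := by exact_mod_cast hD
    have hpos : (0 : ℝ) < (n0 : ℝ) + D := by positivity
    have h1 : (k : ℝ) * ((n0 : ℝ) + D) < n := by
      have := mul_lt_mul_of_pos_right hkn hpos
      rw [one_div, mul_assoc, mul_comm (n : ℝ), ← mul_assoc, inv_mul_cancel₀ hpos.ne',
        one_mul] at this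
      exact this
    have h2 : k * (n0 + D) < n := by exact_mod_cast h1
    have h3 : n0 ≤ n := by nlinarith
    have h4 : k * D ≤ n := by nlinarith
    obtain ⟨L, hL1, hL2, hL3, hL4⟩ := hmain n k h3 h4
      (fun t : Fin 4 → Fin n => ∃ j, H (fun l : Fin 3 => t l.castSucc) j = t 3)
      (fun i v => line_bound H hH i v)
    exact extend_of_cube H hH L hL1 hL2 hL3 hL4
  have hD' : (1 : ℝ) ≤ D := by exact_mod_cast hD
  refine ⟨1 / ((n0 : ℝ) + D), by positivity, ?_⟩
  intro n _
  refine ⟨?_, fun k hk hkn H hH => key n k hk hkn H hH⟩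
  intro k hk
  obtain ⟨⟨h1, h2, H, hH, hne⟩, _⟩ := hk
  by_contra hcon
  push Not at hcon
  exact hne (key n k h1 hcon H hH)

end Pool.Agent.Results.MP_7580b0_co.LinearLowerBound
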